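import Mathlib
import Pool.Agent.Helper43.Gm.Goals2

/-!
Packet G2: the theorem for all systems from the packet G (triangle).
-/

set_option autoImplicit false

namespace Pool.Agent.Helper43.Gm.PkG2

open Finset Pool.Agent.Lead.Sh
open Helper18.Cusp (GoodFor Concl Red kap rr)
open Pool.Agent.Lead.Rw (Ind' split_mult card_simple rows_range_eq sum_range_eq sum_simple
  ind'_ext ind'_empty)

theorem goalG2 (hG : GoalG) : GoalG2 := by
  intro s m d hm hs h
  refine Pool.Agent.Lead.Rw.concl s m d ?_
  obtain ⟨N, f, hNf, h1, h0, h2⟩ := split_mult hm hs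
  have hsumZ : ∑ i : Fin s, (Nat.choose (m (i : ℕ) + 1) 2 : ℤ) =
      ((∑ i ∈ range s, Nat.choose (m i + 1) 2 : ℕ) : ℤ) := by
    rw [← Fin.sum_univ_eq_sum_range (fun i => Nat.choose (m i + 1) 2) s]; push_cast; rfl
  rw [card_simple hNf h1 h0 h2, hsumZ, sum_range_eq hNf h0] at h
  rw [rows_range_eq hNf h0, sum_range_eq hNf h0]
  have hSN : ∑ i ∈ range (N + f), Nat.choose (m i + 1) 2 =
      ∑ i ∈ Finset.Ico 0 N, Nat.choose (m i + 1) 2 + f := by
    rw [range_eq_Ico]
    exact sum_simple (Nat.zero_le _) h1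
  set S := ∑ i ∈ range (N + f), Nat.choose (m i + 1) 2 with hS
  set T := Nat.choose (d + 2) 2 with hT
  have hT1 : 1 ≤ T := Nat.choose_pos (by omega)
  -- the case of independence of the points of multiplicity at least two
  have key : Ind' (triD 0 d) (rows m (Finset.Ico 0 N)) →
      (S ≤ T ∧ Ind (triD 0 d) (rows m (range (N + f)))) ∨
        (T ≤ S ∧ Inj (triD 0 d) (rows m (range (N + f)))) := by
    intro hi
    have hx := ind'_ext (Nat.zero_le N) h1 hi
    have hc : (rows m (Finset.Ico 0 (N + f))).card = S := by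
      rw [card_rows, hS, range_eq_Ico]
    rw [hc, card_triD, ← range_eq_Ico] at hx
    rcases le_or_gt S T with hST | hST
    · exact Or.inl ⟨hST, (hx.1 hST).ind⟩
    · exact Or.inr ⟨hST.le, hx.2 hST.le⟩
  rcases Nat.eq_zero_or_pos (m 0) with hz | hp
  · have hN : N = 0 := by
      by_contra hN
      have := h2 0 (by omega)
      omega
    apply key
    rw [hN]
    have he : rows m (Finset.Ico 0 0) = ∅ := by
      ext r; rw [mem_rows]; simp
    rw [he]
    exact ind'_empty _
  · have hmM : ∀ k, m k ≤ m 0 := fun k => hm (Nat.zero_le k)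
    rcases h with h | h
    · apply key
      obtain ⟨W, hW⟩ : ∃ W, 5 * m 0 * m 0 ≤ 2 * W + m 0 := ⟨5 * m 0 * m 0, by omega⟩
      refine (hG (m 0) d hp W hW).2 m 0 N (Nat.zero_le _) ?_ ?_
      · intro k _ hk
        have := h2 k hk
        exact ⟨by omega, hmM k⟩
      · rw [card_triD, ← hT]
        have hz : ((m 0 * (2 * m 0 - 1) : ℕ) : ℤ) = 2 * (m 0 : ℤ) ^ 2 - m 0 := by
          rw [Nat.cast_mul, Nat.cast_sub (by omega)]
          push_cast
          ring
        have h7 : ((∑ k ∈ Finset.Ico 0 N, Nat.choose (m k + 1) 2 + m 0 * (2 * m 0 - 1) : ℕ) : ℤ) ≤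
            (T : ℤ) := by
          rw [hSN] at h
          rw [Nat.cast_add, hz]
          rw [Nat.cast_add] at h
          linarith
        exact_mod_cast h7
    · right
      have hlt : T ≤ S := by
        have h5 : (m 0 : ℤ) ≤ 5 * (m 0 : ℤ) ^ 2 := by
          have : (1 : ℤ) ≤ m 0 := by exact_mod_cast hp
          nlinarith
        have h6 : (T : ℤ) ≤ S := by linarith
        exact_mod_cast h6
      refine ⟨hlt, ?_⟩
      rw [range_eq_Ico]
      refine (hG (m 0) d hp (S - T) ?_).1 m 0 (N + f) (Nat.zero_le _) ?_ ?_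
      · zify
        rw [Nat.cast_sub hlt]
        linarith
      · intro k _ hk
        refine ⟨?_, hmM k⟩
        rcases Nat.lt_or_ge k N with hkN | hkN
        · have := h2 k hkN
          omega
        · rw [h1 k hkN hk]
      · rw [card_triD, ← hT, ← range_eq_Ico, ← hS]
        omega

end Pool.Agent.Helper43.Gm.PkG2
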